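import Pool.Agent.D0H98.Q5.Abs
import Pool.Agent.Y839.CQ.SYM
import Pool.Agent.Y948.CQ.C2

/-!
# The law of the number of the solutions of a random symmetric completion over the field with two
elements

Merge of `Pool.Agent.Y219.CQ.LA` and `Pool.Agent.Y994.XL.LA`.
-/

set_option autoImplicit false

open scoped Classical

namespace Pool.Agent.D0H98.Q5

open Function Module Finset
open Pool.Agent.Y759.CX (fr fr_equiv fr_comp)
open Pool.Agent.Y219.CQ
open Pool.Agent.Y703.CQ (prs)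

section

variable {ι κ : Type} [Fintype ι] [Fintype κ]

lemma cond_iff (MA : ι → ι → F) (MC : ι → κ → F) (MS : κ → κ → F) (x : ι → F) (y : κ → F) :
    ((∀ x', bf MA x x' + bf MC x' y = 0) ∧ ∀ y', bf MC x y' + bf MS y y' = 0) ↔
      (∀ v, ∑ u, x u * MA u v + ∑ k, MC v k * y k = 0) ∧
      (∀ l, ∑ u, x u * MC u l + ∑ k, y k * MS k l = 0) := by
  constructor
  · rintro ⟨h1, h2⟩
    refine ⟨all_zero _ fun x' => ?_, all_zero _ fun y' => ?_⟩
    · have h3 := h1 x'
      rw [bf_l, bf_r, ← sum_add_distrib] at h3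
      rw [← h3]
      exact sum_congr rfl fun v _ => by rw [add_mul]
    · have h3 := h2 y'
      rw [bf_l, bf_l, ← sum_add_distrib] at h3
      rw [← h3]
      exact sum_congr rfl fun v _ => by rw [add_mul]
  · rintro ⟨h1, h2⟩
    refine ⟨fun x' => ?_, fun y' => ?_⟩
    · rw [bf_l, bf_r, ← sum_add_distrib]
      refine sum_eq_zero fun v _ => ?_
      rw [← add_mul, h1, zero_mul]
    · rw [bf_l, bf_l, ← sum_add_distrib]
      refine sum_eq_zero fun v _ => ?_
      rw [← add_mul, h2, zero_mul]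

end

section main

variable {U J : Type} [Fintype U] [Fintype J]

/-- the number of the solutions of the block system -/
noncomputable def mA' (U1 : Finset U) (J1 : Finset J)
    (A : U → U → ZMod 2) (B : U → J → ZMod 2) (C : J → U → ZMod 2) (R : J → J → ZMod 2)
    (f : U → ZMod 2) (g : J → ZMod 2) : ℕ :=
  Nat.card {q : (U → ZMod 2) × (J → ZMod 2) // (∀ u, u ∉ U1 → q.1 u = 0) ∧
    (∀ k, k ∉ J1 → q.2 k = 0) ∧
    (∀ u ∈ U1, ∑ v, A u v * (q.1 v + q.1 u) + ∑ l, B u l * (q.2 l + q.1 u) + f u * q.1 u = 0) ∧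
    ∀ k ∈ J1, ∑ u, C k u * (q.1 u + q.2 k) + ∑ l, R k l * (q.2 l + q.2 k) + g k * q.2 k = 0}

variable [LinearOrder J]

lemma zx_res (U1 : Finset U) (x : U → F) (hx : ∀ u, u ∉ U1 → x u = 0) :
    zx U1 (fun u => x u) = x := by
  funext u
  by_cases hu : u ∈ U1
  · exact zx_of U1 (fun u => x u) ⟨u, hu⟩
  · rw [zx_not U1 _ hu, hx u hu]

lemma nA_eq (U1 : Finset U) (J1 : Finset J) (A : U → U → F) (B : U → J → F) (C : J → U → F)
    (f : U → F) (g : J → F) (hA : ∀ u ∈ U1, ∀ v ∈ U1, A u v = A v u)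
    (hB : ∀ u ∈ U1, ∀ k ∈ J1, B u k = C k u) (α : prs J1 → F) :
    mA' U1 J1 A B C (Pool.Agent.Y703.CQ.ext α) f g =
      nG (bf (mA U1 A B f)) (bf (mC U1 J1 C)) (bf fun k l => mL J1 α k l + mZ J1 C g k l) := by
  unfold mA' nG
  refine Nat.card_congr ?_
  exact {
    toFun := fun p => ⟨(fun u => p.1.1 u, fun k => p.1.2 k), by
      refine (cond_iff _ _ _ _ _).2 ⟨fun u => ?_, fun k => ?_⟩
      · rw [← row1 U1 J1 A B C f hA hB, zx_res U1 _ p.2.1, zx_res J1 _ p.2.2.1]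
        exact p.2.2.2.1 u u.2
      · rw [← row2 U1 J1 C g α, zx_res U1 _ p.2.1, zx_res J1 _ p.2.2.1]
        exact p.2.2.2.2 k k.2⟩
    invFun := fun q => ⟨(zx U1 q.1.1, zx J1 q.1.2), by
      have h4 := (cond_iff _ _ _ _ _).1 q.2
      refine ⟨fun u hu => zx_not U1 _ hu, fun k hk => zx_not J1 _ hk, fun u hu => ?_,
        fun k hk => ?_⟩
      · rw [row1 U1 J1 A B C f hA hB q.1.1 q.1.2 ⟨u, hu⟩]
        exact h4.1 _
      · rw [row2 U1 J1 C g α q.1.1 q.1.2 ⟨k, hk⟩]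
        exact h4.2 _⟩
    left_inv := fun p => by
      refine Subtype.ext (Prod.ext ?_ ?_)
      · exact zx_res U1 _ p.2.1
      · exact zx_res J1 _ p.2.2.1
    right_inv := fun q => by
      refine Subtype.ext (Prod.ext (funext fun u => ?_) (funext fun k => ?_))
      · exact zx_of U1 _ u
      · exact zx_of J1 _ k }

end main

lemma bound {r z u n : ℕ} (h : n ≤ z + u) :
    (4 : ℝ) ^ r * (1 / 2) ^ z ≤ 4 ^ r * (4 ^ u / 2 ^ n) := by
  refine mul_le_mul_of_nonneg_left ?_ (by positivity)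
  rw [one_div_pow, div_le_div_iff₀ (by positivity) (by positivity), one_mul]
  have h3 : (4 : ℝ) ^ u = 2 ^ (2 * u) := by
    rw [pow_mul]
    norm_num
  rw [h3, ← pow_add]
  exact pow_le_pow_right₀ (by norm_num) (by omega)

theorem core (r : ℕ) (U J : Type) [Fintype U] [Fintype J] [LinearOrder J]
    (U1 : Finset U) (J1 : Finset J) (hJ : ∃ l, l ∉ J1) (A : U → U → ZMod 2) (B : U → J → ZMod 2)
    (C : J → U → ZMod 2) (f : U → ZMod 2) (g : J → ZMod 2)
    (hA : ∀ u ∈ U1, ∀ v ∈ U1, A u v = A v u) (hB : ∀ u ∈ U1, ∀ k ∈ J1, B u k = C k u)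
    (hC : ∀ w : U → ZMod 2, (∀ u, u ∉ U1 → w u = 0) → (∃ u, w u ≠ 0) →
      ∃ k ∈ J1, ∑ u, w u * C k u ≠ 0) :
    |((univ.filter fun α : prs J1 → ZMod 2 =>
        mA' U1 J1 A B C (Pool.Agent.Y703.CQ.ext α) f g = 2 ^ r).card : ℝ) /
        2 ^ (prs J1).card - pr r| ≤ 4 ^ r * (4 ^ U1.card / 2 ^ J1.card) := by
  have e1 : finrank F (U1 → F) = U1.card := by
    rw [finrank_fintype_fun_eq_card, Fintype.card_coe]
  have e2 : finrank F (J1 → F) = J1.card := by
    rw [finrank_fintype_fun_eq_card, Fintype.card_coe]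
  obtain ⟨Z, hm, key⟩ := fr_nG (bf (mA U1 A B f)) (bf_symm _ fun u v => by
      unfold mA
      by_cases huv : u = v
      · rw [huv]
      · rw [if_neg huv, if_neg (Ne.symm huv), hA u u.2 v v.2])
    (bf (mC U1 J1 C)) (fun x hx => by
      by_contra hne
      obtain ⟨k, hk, hk'⟩ := hC (zx U1 x) (fun u hu => zx_not U1 x hu) (by
        by_contra hc
        push Not at hc
        exact hne (funext fun u => by rw [← zx_of U1 x u, hc]; rfl))
      apply hk'
      have h3 := all_zero (fun k : J1 => ∑ i, x i * mC U1 J1 C i k) (fun y => by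
        rw [← bf_l]
        exact hx y) ⟨k, hk⟩
      rw [← h3]
      have h4 : ∑ u, zx U1 x u * C k u = ∑ u, C k u * zx U1 x u :=
        sum_congr rfl fun u _ => mul_comm _ _
      rw [h4, sum_zx]
      exact sum_congr rfl fun u _ => by rw [mul_comm]; rfl)
  rw [e1, e2] at hm
  have h5 : ((univ.filter fun α : prs J1 → ZMod 2 =>
      mA' U1 J1 A B C (Pool.Agent.Y703.CQ.ext α) f g = 2 ^ r).card : ℝ) / 2 ^ (prs J1).card =
      fr (fun S : Sy (J1 → F) =>
        nG (bf (mA U1 A B f)) (bf (mC U1 J1 C)) S.1 = 2 ^ r) := by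
    let S0 : Sy (J1 → F) := ⟨bf (mZ J1 C g), bf_symm _ (mZ_symm J1 C g)⟩
    rw [← fr_equiv (Equiv.addRight S0)
      (fun S : Sy (J1 → F) => nG (bf (mA U1 A B f)) (bf (mC U1 J1 C)) S.1 = 2 ^ r),
      ← fr_comp (pa J1) (pa_surj J1 hJ)]
    unfold Pool.Agent.Y759.CX.fr
    have h6 : Nat.card (prs J1 → F) = 2 ^ (prs J1).card := by
      rw [Nat.card_fun, Nat.card_eq_fintype_card, Nat.card_eq_fintype_card, ZMod.card,
        Fintype.card_coe]
    rw [h6, Nat.card_eq_fintype_card, Fintype.card_subtype]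
    push_cast
    congr 3
    refine Finset.filter_congr fun α _ => ?_
    rw [nA_eq U1 J1 A B C f g hA hB α, bf_add]
    exact Iff.rfl
  rw [h5, key]
  refine (t_LIM Pool.Agent.Y839.CQ.t_SYM Pool.Agent.Y948.CQ.t_C2 r Z).trans (bound ?_)
  omega

end Pool.Agent.D0H98.Q5
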