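import Pool.Agent.D0H10.Q5.StmL
import Pool.Agent.D0H98.Q5.Core

set_option autoImplicit false

/-!
Project Q5, U5a: `S_LA2`.
-/

open scoped Classical

namespace Pool.Agent.D0H98.Q5

/-- **U5a** -/
theorem la2 : Pool.Agent.D0H10.Q5.S_LA2 := by
  intro r
  refine ⟨4 ^ r, by positivity, ?_⟩
  intro U J _ _ _ U1 J1 hJ A B C f g hA hB hC
  exact core r U J U1 J1 hJ A B C f g hA hB hC

end Pool.Agent.D0H98.Q5
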