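import Pool.Agent.D0H98.Q5.Rec

/-!
# The probability that the radical of a random symmetric form over the field with two elements has
dimension `r`
-/

set_option autoImplicit false

open scoped Classical

namespace Pool.Agent.D0H98.Q5

open Function Module
open Pool.Agent.Y759.CX (fr fr_nonneg fr_le_one)
open Pool.Agent.Y219.CQ (Sy card_mod Ns fr_Ns sp)
open Pool.Agent.Y703.CQ (S_SYM S_C2 c2)

/-- the limits -/
noncomputable def pr (r : ℕ) : ℝ := c2 / ∏ i ∈ Finset.range r, ((2 : ℝ) ^ (i + 1) - 1)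

lemma pr_succ (r : ℕ) : ((2 : ℝ) ^ (r + 1) - 1) * pr (r + 1) = pr r := by
  unfold pr
  have h1 : (1 : ℝ) ≤ 2 ^ (r + 1) - 1 := by
    have : (2 : ℝ) ^ 1 ≤ 2 ^ (r + 1) := pow_le_pow_right₀ (by norm_num) (by omega)
    linarith
  have h2 : ∏ i ∈ Finset.range r, ((2 : ℝ) ^ (i + 1) - 1) ≠ 0 := by
    refine Finset.prod_ne_zero_iff.2 fun i _ => ?_
    have : (2 : ℝ) ^ 1 ≤ 2 ^ (i + 1) := pow_le_pow_right₀ (by norm_num) (by omega)
    have : (1 : ℝ) ≤ 2 ^ (i + 1) - 1 := by linarith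
    linarith
  rw [Finset.prod_range_succ]
  have h3 : (2 : ℝ) ^ (r + 1) - 1 ≠ 0 := by linarith
  field_simp

lemma pr_bounds (hc2 : S_C2) (r : ℕ) : 0 ≤ pr r ∧ pr r ≤ 1 := by
  induction r with
  | zero =>
    unfold pr
    simp only [Finset.range_zero, Finset.prod_empty, div_one]
    exact ⟨hc2.2.1.le, hc2.2.2.1.le⟩
  | succ r ih =>
    have h := pr_succ r
    have h1 : (1 : ℝ) ≤ 2 ^ (r + 1) - 1 := by
      have : (2 : ℝ) ^ 1 ≤ 2 ^ (r + 1) := pow_le_pow_right₀ (by norm_num) (by omega)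
      linarith
    have h2 : 0 ≤ pr (r + 1) := by
      by_contra hc
      push Not at hc
      have : ((2 : ℝ) ^ (r + 1) - 1) * pr (r + 1) < 0 := mul_neg_of_pos_of_neg (by linarith) hc
      linarith [ih.1]
    refine ⟨h2, ?_⟩
    have h3 : pr (r + 1) ≤ ((2 : ℝ) ^ (r + 1) - 1) * pr (r + 1) := le_mul_of_one_le_left h2 h1
    linarith [ih.2]

lemma nR_zero {V : Type} [AddCommGroup V] [Module F V] [Finite V] (S : Sy V) :
    nR S = 2 ^ 0 ↔ Ns S.1 := by
  unfold nR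
  rw [pow_zero, Nat.card_eq_one_iff_unique]
  constructor
  · rintro ⟨h1, -⟩ x hx
    have h0 : ∀ y, S.1 (0 : V) y = 0 := fun y => by rw [map_zero, LinearMap.zero_apply]
    exact congrArg Subtype.val (h1.elim (⟨x, hx⟩ : {x : V // ∀ y, S.1 x y = 0}) ⟨0, h0⟩)
  · intro h
    refine ⟨⟨fun a b => Subtype.ext ((h a.1 a.2).trans (h b.1 b.2).symm)⟩,
      ⟨⟨0, fun y => by rw [map_zero, LinearMap.zero_apply]⟩⟩⟩

theorem t_LIM (hsym : S_SYM) (hc2 : S_C2) (r : ℕ) :
    ∀ (V : Type) [AddCommGroup V] [Module F V] [Finite V],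
      |fr (fun S : Sy V => nR S = 2 ^ r) - pr r| ≤ 4 ^ r * (1 / 2) ^ finrank F V := by
  induction r with
  | zero =>
    intro V _ _ _
    have h1 : (fun S : Sy V => nR S = 2 ^ 0) = fun S : Sy V => Ns S.1 :=
      funext fun S => propext (nR_zero S)
    have h2 : pr 0 = c2 := by
      unfold pr
      simp
    rw [h1, fr_Ns hsym, h2, pow_zero, one_mul]
    refine (hc2.1 ((finrank F V + 1) / 2)).trans ?_
    have h3 : (1 / 4 : ℝ) = (1 / 2) ^ 2 := by norm_num
    rw [h3, ← pow_mul]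
    exact pow_le_pow_of_le_one (by norm_num) (by norm_num) (by omega)
  | succ r ih =>
    intro V _ _ _
    rcases Nat.eq_zero_or_pos (finrank F V) with h0 | h0
    · rw [h0, pow_zero, mul_one]
      have h1 := fr_nonneg (fun S : Sy V => nR S = 2 ^ (r + 1))
      have h2 := fr_le_one (fun S : Sy V => nR S = 2 ^ (r + 1))
      have h3 := pr_bounds hc2 (r + 1)
      have h4 : (1 : ℝ) ≤ 4 ^ (r + 1) := one_le_pow₀ (by norm_num)
      rw [abs_le]
      constructor <;> linarith [h3.1, h3.2]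
    · obtain ⟨n, hn⟩ : ∃ n, finrank F V = n + 1 := ⟨finrank F V - 1, by omega⟩
      have hW : finrank F (Fin n → F) = n := by
        rw [finrank_fintype_fun_eq_card, Fintype.card_fin]
      have h1 := t_REC V (Fin n → F) r (by rw [hW, hn])
      have h2 := ih (Fin n → F)
      rw [hW] at h2
      have h3 := pr_succ r
      have h4 : (1 : ℝ) ≤ 2 ^ (r + 1) - 1 := by
        have : (2 : ℝ) ^ 1 ≤ 2 ^ (r + 1) := pow_le_pow_right₀ (by norm_num) (by omega)
        linarith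
      have h5 := fr_nonneg (fun S : Sy (Fin n → F) => nR S = 2 ^ r)
      have h6 := fr_le_one (fun S : Sy (Fin n → F) => nR S = 2 ^ r)
      rw [hn] at h1 ⊢
      obtain ⟨a, ha⟩ : ∃ a : ℝ, a = fr (fun S : Sy V => nR S = 2 ^ (r + 1)) := ⟨_, rfl⟩
      obtain ⟨b, hb⟩ : ∃ b : ℝ, b = fr (fun S : Sy (Fin n → F) => nR S = 2 ^ r) := ⟨_, rfl⟩
      rw [← ha, ← hb] at h1
      rw [← ha]
      rw [← hb] at h2 h5 h6
      have h7 : (2 ^ (r + 1) - 1) * (a - pr (r + 1)) = (b - pr r) - (1 / 2) ^ (n + 1) * b := by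
        rw [mul_sub, h1, h3]; ring
      have hp : (0 : ℝ) < (1 / 2) ^ (n + 1) := by positivity
      have h8 : |(b - pr r) - (1 / 2) ^ (n + 1) * b| ≤ 4 ^ r * (1 / 2) ^ n + (1 / 2) ^ (n + 1) := by
        refine (abs_sub _ _).trans (add_le_add h2 ?_)
        rw [abs_of_nonneg (mul_nonneg hp.le h5)]
        exact mul_le_of_le_one_right hp.le h6
      have h9 : |a - pr (r + 1)| ≤ |(2 ^ (r + 1) - 1) * (a - pr (r + 1))| := by
        rw [abs_mul, abs_of_nonneg (by linarith : (0 : ℝ) ≤ 2 ^ (r + 1) - 1)]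
        exact le_mul_of_one_le_left (abs_nonneg _) h4
      rw [h7] at h9
      refine h9.trans (h8.trans ?_)
      have h10 : (1 : ℝ) ≤ 4 ^ r := one_le_pow₀ (by norm_num)
      have h11 : ((1 : ℝ) / 2) ^ n = 2 * (1 / 2) ^ (n + 1) := by rw [pow_succ]; ring
      rw [h11, pow_succ (4 : ℝ) r]
      nlinarith

end Pool.Agent.D0H98.Q5
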